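import Pool.Agent.H21.L.R_seed8.W45.Ch.Twist

/-! CH-CONT (project CH, Chebotarev): `Pool.Agent.W45.ChCont.main : Pool.Agent.W401.Cheb.TaskCont`
is proved in `Pool/Agent/W45/Ch/Twist.lean`. -/
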